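import Pool.Agent.H73.CBD.Stmts

/-!
Row `SLP` of the board `cbd` (helper73).
-/

set_option autoImplicit false

open Set Filter Topology

namespace Pool.CBD

private theorem slp_S_nrm (hF : FEQStmt) (z : V) (hz : z ≠ 0) : S (nrm z) = S z := by
  have hn : (‖z‖ : ℝ) ≠ 0 := norm_ne_zero_iff.mpr hz
  have hc : (((‖z‖⁻¹ : ℝ)) : ℂ) ≠ 0 := by
    rw [Ne, Complex.ofReal_eq_zero]
    exact inv_ne_zero hn
  have h1 := (hF z hz).2.2.2 _ hc
  have h2 : nrm z = (((‖z‖⁻¹ : ℝ)) : ℂ) • z := by
    unfold nrm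
    exact (Complex.coe_smul _ _).symm
  rw [h2]
  exact h1

theorem SLP_thm (hS : SUMStmt) (hF : FEQStmt) (hN : NRMStmt) : SLPStmt := by
  obtain ⟨hd, C, hC⟩ := hS
  refine ⟨2 * |C| + 2, by positivity, fun z w hz hw => ?_⟩
  obtain ⟨ha1, ha0⟩ := hN.2 z hz
  obtain ⟨hb1, hb0⟩ := hN.2 w hw
  rw [← slp_S_nrm hF z hz, ← slp_S_nrm hF w hw]
  set a := nrm z with hadef
  set b := nrm w with hbdef
  have hlog : Real.log 2 ≤ 1 := by
    have := Real.log_two_lt_d9
    linarith
  rcases le_or_gt ‖a - b‖ (1 / 2) with hab | hab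
  · -- close directions: mean value inequality on the segment
    have hpt : ∀ x ∈ segment ℝ b a, 1 / 2 ≤ ‖x‖ := by
      intro x hx
      obtain ⟨s, t, hs, ht, hst, rfl⟩ := hx
      have h1 : s • b + t • a = a - s • (a - b) := by
        have : t = 1 - s := by linarith
        rw [this]; module
      rw [h1]
      have h2 : ‖s • (a - b)‖ ≤ 1 / 2 := by
        rw [norm_smul, Real.norm_eq_abs, abs_of_nonneg hs]
        have h3 : s ≤ 1 := by linarith
        calc s * ‖a - b‖ ≤ 1 * ‖a - b‖ := mul_le_mul_of_nonneg_right h3 (norm_nonneg _)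
          _ ≤ 1 / 2 := by linarith
      have h4 : ‖a‖ ≤ ‖a - s • (a - b)‖ + ‖s • (a - b)‖ := by
        have := norm_add_le (a - s • (a - b)) (s • (a - b))
        rwa [sub_add_cancel] at this
      linarith
    have hne : ∀ x ∈ segment ℝ b a, x ≠ 0 := by
      intro x hx h0
      have := hpt x hx
      rw [h0, norm_zero] at this
      linarith
    have hbound : ∀ x ∈ segment ℝ b a, ‖fderiv ℝ S x‖ ≤ 2 * |C| := by
      intro x hx
      have h1 := (hC x (hne x hx)).2
      have h2 := hpt x hx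
      have h3 : 0 < ‖x‖ := by linarith
      refine h1.trans ?_
      rw [div_le_iff₀ h3]
      have h4 : C ≤ |C| := le_abs_self C
      have h5 : 0 ≤ |C| := abs_nonneg C
      nlinarith
    have hmv := Convex.norm_image_sub_le_of_norm_fderiv_le (𝕜 := ℝ) (f := S)
      (fun x hx => (hd x (hne x hx)).1) hbound (convex_segment b a)
      (left_mem_segment ℝ b a) (right_mem_segment ℝ b a)
    rw [Real.norm_eq_abs] at hmv
    refine hmv.trans ?_
    have h5 : 0 ≤ ‖a - b‖ := norm_nonneg _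
    nlinarith
  · obtain ⟨-, h1, h2, -⟩ := hF a ha0
    obtain ⟨-, h3, h4, -⟩ := hF b hb0
    have h5 : |S a - S b| ≤ 1 := by
      rw [abs_le]; constructor <;> linarith
    have h6 : 0 ≤ |C| := abs_nonneg C
    nlinarith [norm_nonneg (a - b)]

end Pool.CBD
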